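import Pool.Agent.H19.GrE

/-! Two Grothendieck spaces whose product is not weakly Grothendieck. -/

namespace Pool.Agent.Results.MP_20595b_gt.Both

open Set Filter Pool.Agent.H19.Gr

theorem result : ∃ (X Y : Type) (_ : TopologicalSpace X) (_ : TopologicalSpace Y),
    T35Space X ∧ T35Space Y ∧ Grothendieck X ∧ Grothendieck Y ∧
    ¬ Grothendieck (X × Y) ∧ ¬ WeaklyGrothendieck (X × Y) := by
  obtain ⟨V, hV, h⟩ := exists_ultra (hyperfilter ℕ)
  haveI : (cocountable : Filter ℝ).NeBot := by
    refine ⟨fun h5 => ?_⟩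
    have : (∅ : Set ℝ) ∈ (cocountable : Filter ℝ) := h5 ▸ mem_bot
    rw [mem_cocountable, compl_empty] at this
    exact not_countable_univ this
  have h1 := not_wg_Sp h hyperfilter_le_cofinite hV (p := Ultrafilter.of cocountable)
    fun B hB => Ultrafilter.compl_mem_iff_notMem.1
      (Ultrafilter.of_le cocountable (mem_cocountable.2 (by rwa [compl_compl])))
  exact ⟨_, _, inferInstance, inferInstance, inferInstance, inferInstance,
    groth_Sp hyperfilter_le_cofinite _, groth_Sp hV _, fun h2 => h1 (wg_of_groth h2), h1⟩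

end Pool.Agent.Results.MP_20595b_gt.Both
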